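import Pool.Agent.Y683.CG.Main

/-!
# Groups of characters of prime power order: nonvanishing central values for several newforms at once

`f_1, ..., f_r` are newforms of even weights `2m_i` with characters `η_i`, `M_i` their motives.  For a
group `H` of Dirichlet characters of exponent `ℓ^b` the central values of the polarized motives
attached to `M_i(m_i) ⊗ χ`, `χ ∈ H`, are the `L(f_i, χ, m_i)`.

Method: `L(f, χ, m)` divided by an explicit nonzero factor is a combination with coefficients values of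
`χ` of modular symbols with polynomial coefficients; these lie in one finitely generated subgroup `Λ` of
`ℂ` that is stable under the Hecke eigenvalues and the roots of unity; the powers of a maximal ideal
above `ℓ` of its ring of multipliers give a filtration of `Λ`.  The sums at different conductors are
connected by the Euler-like factors `c(q) - η(q) q^(m-1) χ(q) - q^(m-1) χ(q)⁻¹` at the new primes `q`;
if they are units at the maximal ideal, a descent along the filtration finds a nonvanishing twist in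
every coset of a subgroup of bounded order.  The products over `i` of such sums are again such sums, so
that `r` newforms can be treated simultaneously.
-/

set_option autoImplicit false

open Complex UpperHalfPlane MatrixGroups CongruenceSubgroup

namespace Pool.Agent.Results.MP_ec4e4b_nt.CharacterGroups

/-- The `n`-th Fourier coefficient of `f`. -/
noncomputable def coef {N : ℕ} {k : ℤ} (f : CuspForm (Gamma1 N : Subgroup (GL (Fin 2) ℝ)) k)
    (n : ℕ) : ℂ :=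
  (qExpansion 1 f).coeff n

/-- `f ∈ S_{2m}(Γ₁(N))` is a newform of weight `2m` with character `η`:
`f(γτ) = η(d) (cτ + d)^(2m) f(τ)` for all `γ = (a b; c d) ∈ Γ₀(N)`, the Fourier coefficients `c(n)` of
`f` satisfy `c(1) = 1`, `c(ab) = c(a) c(b)` for coprime `a`, `b`,
`c(p^(j+2)) = c(p) c(p^(j+1)) - η(p) p^(2m-1) c(p^j)`, and for the primes `p ∤ N` also
`conj c(p) = conj η(p) c(p)` and `|c(p)| ≤ 2 p^((2m-1)/2)` (Deligne), for the primes `p ∣ N`
`|c(p)| ≤ p^((2m-1)/2)`; the Fricke involution takes `f` to a multiple of `f^c`,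
`f^c(τ) = conj f(-conj τ)`: `f(-1/(Nτ)) = w (-N)^m τ^(2m) f^c(τ)` with `|w| = 1`. -/
structure IsNewform (m N : ℕ) (η : DirichletCharacter ℂ N)
    (f : CuspForm (Gamma1 N : Subgroup (GL (Fin 2) ℝ)) (2 * m : ℤ)) : Prop where
  neb : ∀ γ : SL(2, ℤ), γ ∈ Gamma0 N → ∀ τ : ℍ, f (γ • τ) = η ((γ 1 1 : ℤ) : ZMod N) *
    (((γ 1 0 : ℤ) : ℂ) * (τ : ℂ) + ((γ 1 1 : ℤ) : ℂ)) ^ (2 * m) * f τ
  one : coef f 1 = 1
  mul : ∀ a b : ℕ, Nat.Coprime a b → coef f (a * b) = coef f a * coef f b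
  pow : ∀ p j : ℕ, p.Prime → coef f (p ^ (j + 2)) = coef f p * coef f (p ^ (j + 1)) -
    η (p : ZMod N) * (p : ℂ) ^ (2 * m - 1) * coef f (p ^ j)
  conj : ∀ p : ℕ, p.Prime → ¬ p ∣ N → (starRingEnd ℂ) (coef f p) =
    (starRingEnd ℂ) (η (p : ZMod N)) * coef f p
  good : ∀ p : ℕ, p.Prime → ¬ p ∣ N → ‖coef f p‖ ≤ 2 * (p : ℝ) ^ ((2 * m - 1 : ℝ) / 2)
  bad : ∀ p : ℕ, p.Prime → p ∣ N → ‖coef f p‖ ≤ (p : ℝ) ^ ((2 * m - 1 : ℝ) / 2)
  fricke : ∃ w : ℂ, ‖w‖ = 1 ∧ ∀ τ τ' τc : ℍ, (τ' : ℂ) * ((N : ℂ) * (τ : ℂ)) = -1 →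
    (τc : ℂ) = -(starRingEnd ℂ) (τ : ℂ) →
    f τ' = (-1 : ℂ) ^ m * w * (N : ℂ) ^ m * (τ : ℂ) ^ (2 * m) * (starRingEnd ℂ) (f τc)

/-- Families `χ = (χ_q)` of Dirichlet characters, `χ_q` modulo `q`, with the product of families.  Only
families with `χ_q = 1` for all but finitely many `q` occur; such a family stands for the primitive
character `∏ χ_q`, the product over the `q` with `χ_q ≠ 1` (these `q` will be primes). -/
abbrev Family : Type := (q : ℕ) → DirichletCharacter ℂ q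

/-- The value at `n` of the primitive character `χ₀ ∏ χ_q`. -/
noncomputable def value {c : ℕ} (χ₀ : DirichletCharacter ℂ c) (χ : Family) (n : ℕ) : ℂ :=
  χ₀ (n : ZMod c) * ∏ᶠ (q : ℕ) (_ : χ q ≠ 1), χ q (n : ZMod q)

/-- `L(f, χ₀χ, s)`, the Euler product of the
`(1 - ψ(p) c(p) p^(-s) + ψ(p)² η(p) p^(2m-1-2s))⁻¹`, `ψ = χ₀ ∏ χ_q`, for `Re s > m + 1/2`, extends to
an entire function, and `L(f, χ₀χ, m) ≠ 0`. -/
def Nonvanishing {m N c : ℕ} (η : DirichletCharacter ℂ N)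
    (f : CuspForm (Gamma1 N : Subgroup (GL (Fin 2) ℝ)) (2 * m : ℤ)) (χ₀ : DirichletCharacter ℂ c)
    (χ : Family) : Prop :=
  ∃ L : ℂ → ℂ, Differentiable ℂ L ∧ (∀ s : ℂ, (m : ℝ) + 1 / 2 < s.re →
    HasProd (fun p : Nat.Primes => (1 - value χ₀ χ p * coef f p * ((p : ℕ) : ℂ) ^ (-s) +
      value χ₀ χ p ^ 2 * η ((p : ℕ) : ZMod N) * ((p : ℕ) : ℂ) ^ (2 * (m : ℂ) - 1 - 2 * s))⁻¹)
      (L s)) ∧ L m ≠ 0

/-- **Main theorem.** Let `f_i ∈ S_{2m_i}(Γ₁(N_i))`, `i = 1, ..., r`, be newforms with characters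
`η_i` and Fourier coefficients `c_i(n)`, `ℓ` a prime number and `𝔪` a maximal ideal above `ℓ` of the
ring of all algebraic integers.

(A) Let `χ₀ᵢ` be primitive Dirichlet characters of conductors prime to `N_i` with
`L(f_i, χ₀ᵢ, m_i) ≠ 0` for all `i`.  For every `b` there is `V` such that for **every** group `H`,
finite or infinite, of Dirichlet characters `χ` with `χ^(ℓ^b) = 1` and squarefree conductors composed of
primes `q`, prime to the `N_i` and to the conductors of the `χ₀ᵢ`, with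
`c_i(q) - η_i(q) χ₀ᵢ(q) - χ₀ᵢ(q)⁻¹ ∉ 𝔪` for all `i`, there is a subgroup `K` of `H` of order at most
`ℓ^(bV)` such that every coset of `K` in `H` contains a `χ` with `L(f_i, χ₀ᵢχ, m_i) ≠ 0` for all `i`.
If `H` is finite, then `L(f_i, χ₀ᵢχ, m_i) ≠ 0` for all `i` holds for at least `#H / ℓ^(bV)` elements `χ`
of `H`.

(B) If `ℓ` does not divide the `N_i`, then there is a primitive character `χ₀` whose conductor and order
are powers of `ℓ`, such that the conclusions of (A) with `χ₀ᵢ = χ₀` hold for all `b` and all groups `H`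
of Dirichlet characters `χ` with `χ^(ℓ^b) = 1` and squarefree conductors composed of primes `q`, prime to
the `N_i`, with `c_i(q) - 1 - η_i(q) ∉ 𝔪` for all `i`. -/
theorem result (r : ℕ) (m N : Fin r → ℕ) [∀ i, NeZero (N i)] (hm : ∀ i, 1 ≤ m i)
    (η : (i : Fin r) → DirichletCharacter ℂ (N i))
    (f : (i : Fin r) → CuspForm (Gamma1 (N i) : Subgroup (GL (Fin 2) ℝ)) (2 * m i : ℤ))
    (hf : ∀ i, IsNewform (m i) (N i) (η i) (f i)) (ℓ : ℕ) (hℓ : ℓ.Prime)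
    (𝔪 : Ideal (integralClosure ℤ ℂ)) (hmax : 𝔪.IsMaximal)
    (hℓ𝔪 : (ℓ : integralClosure ℤ ℂ) ∈ 𝔪) :
    (∀ (c : Fin r → ℕ) (χ₀ : (i : Fin r) → DirichletCharacter ℂ (c i)),
      (∀ i, 1 ≤ c i ∧ Nat.Coprime (c i) (N i) ∧ (χ₀ i).IsPrimitive ∧
        Nonvanishing (η i) (f i) (χ₀ i) 1) →
      ∀ b : ℕ, ∃ V : ℕ, ∀ H : Subgroup Family, (∀ χ ∈ H, χ ^ (ℓ ^ b) = 1 ∧ {q | χ q ≠ 1}.Finite ∧
        ∀ q, χ q ≠ 1 → q.Prime ∧ ∀ i, ¬ q ∣ N i ∧ ¬ q ∣ c i ∧ ∃ x : integralClosure ℤ ℂ, x ∉ 𝔪 ∧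
          (x : ℂ) = coef (f i) q - η i (q : ZMod (N i)) * χ₀ i (q : ZMod (c i)) -
            (χ₀ i (q : ZMod (c i)))⁻¹) →
        (∃ K : Subgroup Family, K ≤ H ∧ Finite K ∧ Nat.card K ≤ (ℓ ^ b) ^ V ∧
          ∀ ψ ∈ H, ∃ φ ∈ K, ∀ i, Nonvanishing (η i) (f i) (χ₀ i) (ψ * φ)) ∧
        (Finite H → Nat.card H ≤ (ℓ ^ b) ^ V *
          Nat.card {ψ : H // ∀ i, Nonvanishing (η i) (f i) (χ₀ i) ψ})) ∧
    ((∀ i, ¬ ℓ ∣ N i) → ∃ (k a : ℕ) (χ₀ : DirichletCharacter ℂ (ℓ ^ k)), χ₀.IsPrimitive ∧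
      χ₀ ^ (ℓ ^ a) = 1 ∧
      ∀ b : ℕ, ∃ V : ℕ, ∀ H : Subgroup Family, (∀ χ ∈ H, χ ^ (ℓ ^ b) = 1 ∧ {q | χ q ≠ 1}.Finite ∧
        ∀ q, χ q ≠ 1 → q.Prime ∧ ∀ i, ¬ q ∣ N i ∧ ∃ x : integralClosure ℤ ℂ, x ∉ 𝔪 ∧
          (x : ℂ) = coef (f i) q - 1 - η i (q : ZMod (N i))) →
        (∃ K : Subgroup Family, K ≤ H ∧ Finite K ∧ Nat.card K ≤ (ℓ ^ b) ^ V ∧
          ∀ ψ ∈ H, ∃ φ ∈ K, ∀ i, Nonvanishing (η i) (f i) χ₀ (ψ * φ)) ∧
        (Finite H → Nat.card H ≤ (ℓ ^ b) ^ V *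
          Nat.card {ψ : H // ∀ i, Nonvanishing (η i) (f i) χ₀ ψ})) := by
  choose w hw hfr using fun i => (hf i).fricke
  have hN : ∀ i, Pool.Agent.W192.CY.NNewf (m i) (N i) (η i) (f i) (w i) := fun i =>
    ⟨(hf i).one, (hf i).mul, (hf i).pow, (hf i).conj, (hf i).good, (hf i).bad, (hf i).neb, hw i,
      hfr i⟩
  refine ⟨fun c χ₀ h b => ?_, fun hℓN => ?_⟩
  · exact Pool.Agent.Y683.CG.mainA hm hN hℓ 𝔪 hmax hℓ𝔪 (fun i => (h i).1) χ₀
      (fun i => (h i).2.2.1) (fun i => (h i).2.1) (fun i => (h i).2.2.2) b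
  · exact Pool.Agent.Y683.CG.mainB hm hN hℓ 𝔪 hmax hℓ𝔪 hℓN

end Pool.Agent.Results.MP_ec4e4b_nt.CharacterGroups
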